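import Pool.Agent.Mg.Fee574fa.G984dbe

set_option autoImplicit false

namespace Pool.Agent.Results.MP_ee574f_co.ConstDegree

open Pool.Agent.MP_ee574f_co

/-- In a 2-connected graph of minimum degree at least `42 * 10 ^ 9` every longest cycle has a
chord. -/
theorem result :
    ∀ (V : Type) [Fintype V] (G : SimpleGraph V),
      3 ≤ Fintype.card V →
      (∀ S : Finset V, S.card ≤ 1 → (G.induce ((↑S : Set V)ᶜ)).Connected) →
      (∀ v : V, 42000000000 ≤ (G.neighborSet v).ncard) →
      ∀ (u : V) (c : G.Walk u u), c.IsCycle →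
        (∀ (v : V) (d : G.Walk v v), d.IsCycle → d.length ≤ c.length) →
        ∃ x y : V, x ∈ c.support ∧ y ∈ c.support ∧ G.Adj x y ∧ s(x, y) ∉ c.edges := by
  classical
  intro V _ G _ hconn hδ u c hc hmax
  by_contra hno
  have hL := long_of_walk c hc hmax hno
  have hdeg : ∀ v, (G.neighborSet v).ncard = G.degree v := fun v => by
    rw [← SimpleGraph.card_neighborFinset_eq_degree, ← Set.ncard_coe_finset,
      SimpleGraph.coe_neighborFinset]
  refine CD.const_degree hL (fun v => ?_) (fun s => ?_)
  · have := hδ v; rw [hdeg] at this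
    refine le_of_le_of_eq this ?_
    congr
  · have := hconn {s} (by simp)
    rwa [Finset.coe_singleton] at this

end Pool.Agent.Results.MP_ee574f_co.ConstDegree
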